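import Pool.Agent.Y113.Defs

/-!
# Project GF: Shidlovsky's lemma, statement
-/

set_option autoImplicit false

open PowerSeries

namespace Pool.Agent.Y113

/-- the derived row vector: `(nab T B P) · y = T (P · y)'` if `T y' = B y` -/
noncomputable def nab {K : Type} [Field K] {N : ℕ} (T : Polynomial K) (B : Fin N → Fin N → Polynomial K)
    (P : Fin N → Polynomial K) : Fin N → Polynomial K :=
  fun j => T * Polynomial.derivative (P j) + ∑ i, P i * B i j

/-- Shidlovsky's lemma -/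
def T_shid : Prop := ∀ (K : Type) [Field K] [CharZero K] (N : ℕ) (T : Polynomial K) (B : Fin N → Fin N → Polynomial K)
  (y : Fin N → K⟦X⟧) (ξ : K), T.eval ξ ≠ 0 →
  (∀ i, (T : K⟦X⟧) * (d⁄dX K (y i)) = ∑ j, (B i j : K⟦X⟧) * y j) → LinearIndependent (Polynomial K) y →
  ∃ c : ℕ, ∀ (n m : ℕ) (P : Fin N → Polynomial K), P ≠ 0 → (∀ i, (P i).natDegree ≤ n) →
    (∀ l < m, coeff l (∑ i, (P i : K⟦X⟧) * y i) = 0) → (N - 1) * n + c < m →
    (Matrix.of fun k j : Fin N => ((nab T B)^[(k : ℕ)] P) j).det ≠ 0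

/-- solutions at an ordinary point -/
def T_loc : Prop := ∀ (K : Type) [Field K] [CharZero K] (N : ℕ) (T : Polynomial K) (B : Fin N → Fin N → Polynomial K)
  (v : Fin N → K), T.eval 0 ≠ 0 → ∃ w : Fin N → K⟦X⟧, (∀ i, constantCoeff (w i) = v i) ∧
  ∀ i, (T : K⟦X⟧) * (d⁄dX K (w i)) = ∑ j, (B i j : K⟦X⟧) * w j

end Pool.Agent.Y113
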