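import Pool.Agent.Y118.HG.Defs
import Pool.Agent.Y113.P.Gal3

/-!
# Galochkin's condition for `n × n` systems with a fundamental matrix of G-functions
-/

set_option autoImplicit false

open PowerSeries Finset.HasAntidiagonal

namespace Pool.Agent.Y113.HGG

open Pool.Agent.Y113

section Mat

variable {n : ℕ} (T : Polynomial ℤ) (A : Fin n → Fin n → Polynomial ℤ)

/-- the denominator over `ℚ` -/
noncomputable def tq : Polynomial ℚ := T.map (Int.castRingHom ℚ)

/-- the transposed matrix over `ℚ` -/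
noncomputable def aq : Fin n → Fin n → Polynomial ℚ := fun j k => (A k j).map (Int.castRingHom ℚ)

/-- `T^s hd s y = y Ah` -/
noncomputable def ah (s : ℕ) (i j : Fin n) : Polynomial ℚ :=
  Polynomial.C (1 / (s.factorial : ℚ)) * Bm (tq T) (aq A) s i j

lemma ah_zero (i j : Fin n) : ah T A 0 i j = if i = j then 1 else 0 := by
  simp [ah, Bm]

lemma ah_succ (s : ℕ) (i j : Fin n) : ah T A (s + 1) i j = Polynomial.C (1 / ((s : ℚ) + 1)) *
    (tq T * Polynomial.derivative (ah T A s i j) - Polynomial.C (s : ℚ) * (Polynomial.derivative (tq T) * ah T A s i j) +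
      ∑ l, aq A l j * ah T A s i l) := by
  unfold ah
  rw [Bm, Nat.factorial_succ]
  have h1 : (Polynomial.C (1 / (((s + 1) * s.factorial : ℕ) : ℚ)) : Polynomial ℚ) =
      Polynomial.C (1 / ((s : ℚ) + 1)) * Polynomial.C (1 / (s.factorial : ℚ)) := by
    rw [← Polynomial.C_mul]
    congr 1
    push_cast
    have : ((s : ℚ) + 1) ≠ 0 := by positivity
    have : (s.factorial : ℚ) ≠ 0 := by positivity
    field_simp
  rw [h1, mul_assoc]
  congr 1
  have h2 : (s : Polynomial ℚ) = Polynomial.C (s : ℚ) := by simp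
  rw [Polynomial.derivative_C_mul, mul_add, mul_sub, Finset.mul_sum, h2]
  congr 1
  · ring
  · exact Finset.sum_congr rfl fun l _ => by ring

/-- the constant -/
def cc (n q : ℕ) : ℕ := (q + 1) * (2 * q + n + 1)

lemma one_le_cc (n q : ℕ) : (1 : ℝ) ≤ cc n q := by
  have : 1 ≤ cc n q := by
    unfold cc
    exact Nat.succ_le_of_lt (by positivity)
  exact_mod_cast this

variable {T A}

lemma ah_size {q : ℕ} {B : ℝ} (hB : 1 ≤ B) (hT : Bd q B T) (hA : ∀ i j, Bd q B (A i j)) (s : ℕ) (i j : Fin n) :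
    Bq (q * s) ((cc n q * B) ^ s) (ah T A s i j) := by
  have hB0 : 0 < B := by linarith
  have hc1 := one_le_cc n q
  induction s generalizing i j with
  | zero =>
    rw [ah_zero]
    split_ifs
    · simpa using Bq.one
    · exact Bq.zero.mono le_rfl (by simp)
  | succ s ih =>
    rw [ah_succ]
    set a := ((cc n q : ℝ) * B) ^ s with ha
    have ha0 : 0 ≤ a := by positivity
    have hTQ : Bq q B (tq T) := hT.toBq
    have h1 : Bq (q + q * s) ((q + 1) * (B * (((q : ℝ) * s) * a))) (tq T * Polynomial.derivative (ah T A s i j)) := by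
      have := hTQ.mul (ih i j).deriv
      push_cast at this ⊢
      exact this
    have h2 : Bq (q + q * s) (s * ((q + 1) * ((q * B) * a)))
        (Polynomial.C (s : ℚ) * (Polynomial.derivative (tq T) * ah T A s i j)) := by
      refine Bq.C_mul ?_ (by simp)
      have := hTQ.deriv.mul (ih i j)
      push_cast at this ⊢
      exact this
    have h3 : Bq (q + q * s) ((Finset.univ : Finset (Fin n)).card * ((q + 1) * (B * a)))
        (∑ l, aq A l j * ah T A s i l) := by
      refine Bq.sum _ fun l _ => ?_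
      exact (hA j l).toBq.mul (ih i l)
    have h4 := ((h1.sub h2).add h3)
    have hs : (0 : ℝ) < (s : ℝ) + 1 := by positivity
    have h5 := h4.C_mul (c := 1 / ((s : ℚ) + 1)) (B := 1 / ((s : ℝ) + 1)) (by
      push_cast
      rw [abs_of_nonneg (by positivity)])
    refine h5.mono (by rw [mul_add]; omega) ?_
    rw [div_mul_eq_mul_div, one_mul, div_le_iff₀ hs, Finset.card_univ, Fintype.card_fin]
    rw [pow_succ, ← ha]
    have h6 : 0 ≤ B * a := by positivity
    have h7 : (0 : ℝ) ≤ s := by positivity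
    have h8 : (0 : ℝ) ≤ q := by positivity
    have h9 : (0 : ℝ) ≤ n := by positivity
    have h10 : ((q : ℝ) + 1) * (2 * q * s + n) ≤ (cc n q : ℝ) * (s + 1) := by
      unfold cc
      push_cast
      have : (0 : ℝ) ≤ (q + 1) * ((n : ℝ) * s + 2 * q + s + 1) := by positivity
      nlinarith
    calc ((q : ℝ) + 1) * (B * (((q : ℝ) * s) * a)) + s * ((q + 1) * ((q * B) * a)) + n * ((q + 1) * (B * a))
        = (((q : ℝ) + 1) * (2 * q * s + n)) * (B * a) := by ring
      _ ≤ ((cc n q : ℝ) * (s + 1)) * (B * a) := mul_le_mul_of_nonneg_right h10 h6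
      _ = _ := by ring

variable {y w : Fin n → Fin n → ℚ⟦X⟧}

lemma hd_row (hy : ∀ i j, ps T * d⁄dX ℚ (y i j) = ∑ k, y i k * ps (A k j)) (s : ℕ) (i j : Fin n) :
    ps T ^ s * hd s (y i j) = ∑ k, ((ah T A s j k : Polynomial ℚ) : ℚ⟦X⟧) * y i k := by
  have hy' : ∀ j, (Polynomial.coeToPowerSeries.ringHom (R := ℚ)) (tq T) * d⁄dX ℚ (y i j) =
      ∑ k, (Polynomial.coeToPowerSeries.ringHom (R := ℚ)) (aq A j k) * y i k := by
    intro j
    refine (hy i j).trans (Finset.sum_congr rfl fun k _ => ?_)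
    rw [mul_comm]
    rfl
  have h1 := rec_iter (Polynomial.coeToPowerSeries.ringHom (R := ℚ)) (fun p => by
    simp [PowerSeries.derivative_coe]) (T := tq T) (B := aq A) (Y := y i) hy' s j
  refine mul_left_cancel₀ (fac_ne s) ?_
  have h2 : (s.factorial : ℚ⟦X⟧) * (ps T ^ s * hd s (y i j)) =
      (Polynomial.coeToPowerSeries.ringHom (R := ℚ)) (tq T) ^ s * (⇑(d⁄dX ℚ))^[s] (y i j) := by
    rw [← fac_hd]
    show _ = (ps T) ^ s * _
    ring
  rw [h2, h1, Finset.mul_sum]
  refine Finset.sum_congr rfl fun k _ => ?_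
  unfold ah
  rw [Polynomial.coe_mul, Polynomial.coe_C]
  have h3 : (s.factorial : ℚ⟦X⟧) * PowerSeries.C (1 / (s.factorial : ℚ)) = 1 := by
    rw [← map_natCast (PowerSeries.C (R := ℚ)), ← map_mul]
    have : (s.factorial : ℚ) ≠ 0 := by positivity
    rw [mul_one_div_cancel this, map_one]
  show ((Bm (tq T) (aq A) s j k : Polynomial ℚ) : ℚ⟦X⟧) * y i k = _
  calc ((Bm (tq T) (aq A) s j k : Polynomial ℚ) : ℚ⟦X⟧) * y i k
      = ((s.factorial : ℚ⟦X⟧) * PowerSeries.C (1 / (s.factorial : ℚ))) *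
        (((Bm (tq T) (aq A) s j k : Polynomial ℚ) : ℚ⟦X⟧) * y i k) := by rw [h3, one_mul]
    _ = _ := by ring

lemma ah_solve (hy : ∀ i j, ps T * d⁄dX ℚ (y i j) = ∑ k, y i k * ps (A k j))
    (hw : ∀ i j, ∑ k, w i k * y k j = if i = j then 1 else 0) (s : ℕ) (j l : Fin n) :
    ((ah T A s j l : Polynomial ℚ) : ℚ⟦X⟧) = ∑ i, w l i * (ps T ^ s * hd s (y i j)) := by
  simp only [hd_row hy s, Finset.mul_sum]
  rw [Finset.sum_comm]
  have h1 : ∀ k, ∑ i, w l i * (((ah T A s j k : Polynomial ℚ) : ℚ⟦X⟧) * y i k) =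
      ((ah T A s j k : Polynomial ℚ) : ℚ⟦X⟧) * (if l = k then 1 else 0) := by
    intro k
    rw [← hw l k, Finset.mul_sum]
    exact Finset.sum_congr rfl fun i _ => by ring
  simp only [h1]
  simp

lemma IS.hd' {m d s k : ℕ} {f : ℚ⟦X⟧} (hf : IS (m + k) d f) (hs : s ≤ k) : IS m d (Y113.hd s f) := by
  intro j hj
  obtain ⟨a, ha⟩ := hf (j + s) (by omega)
  refine ⟨((j + s).choose s : ℤ) * a, ?_⟩
  rw [coeff_hd]
  push_cast
  rw [← ha]
  ring

lemma IP_ah {q k s dw dy : ℕ} (hy : ∀ i j, ps T * d⁄dX ℚ (y i j) = ∑ k, y i k * ps (A k j))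
    (hw : ∀ i j, ∑ k, w i k * y k j = if i = j then 1 else 0)
    (hwd : ∀ i j, IS (q * k) dw (w i j)) (hyd : ∀ i j, IS (q * k + k) dy (y i j)) (hs : s ≤ k)
    (hdeg : ∀ i j, (ah T A s i j).natDegree ≤ q * s) (j l : Fin n) : IP (dw * dy) (ah T A s j l) := by
  have key : IS (q * k) (dw * dy) ((ah T A s j l : Polynomial ℚ) : ℚ⟦X⟧) := by
    rw [ah_solve hy hw]
    refine IS.sum _ fun i _ => ?_
    have h1 := (IS.ps_pow (q * k) T s).mul (IS.hd' (hyd i j) hs)
    have h2 := (hwd l i).mul h1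
    rwa [one_mul] at h2
  refine IP.of_coeff fun m => ?_
  by_cases hm : m ≤ q * s
  · obtain ⟨a, ha⟩ := key m (hm.trans (Nat.mul_le_mul_left q hs))
    exact ⟨a, by rw [← ha, Polynomial.coeff_coe]⟩
  · refine ⟨0, ?_⟩
    rw [Polynomial.coeff_eq_zero_of_natDegree_lt (lt_of_le_of_lt (hdeg j l) (by omega))]
    simp

lemma common_den {C : ℝ} {f : Fin n → Fin n → ℚ⟦X⟧} (h : ∀ i j, SDp C (f i j)) (m : ℕ) :
    ∃ d : ℕ, 0 < d ∧ (d : ℝ) ≤ (C ^ (m + 1)) ^ (n * n) ∧ ∀ i j, IS m d (f i j) := by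
  choose d hd0 hd hd' using fun p : Fin n × Fin n => (h p.1 p.2).2 m
  refine ⟨∏ p, d p, Finset.prod_pos fun p _ => hd0 p, ?_, fun i j l hl => ?_⟩
  · push_cast
    refine (Finset.prod_le_prod (fun p _ => by positivity) fun p _ => hd p).trans (le_of_eq ?_)
    rw [Finset.prod_const, Finset.card_univ, Fintype.card_prod, Fintype.card_fin]
  · obtain ⟨a, ha⟩ := hd' (i, j) l hl
    refine ⟨(∏ p ∈ Finset.univ.erase (i, j), d p : ℕ) * a, ?_⟩
    rw [← Finset.prod_erase_mul _ _ (Finset.mem_univ (i, j))]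
    push_cast
    rw [← ha]
    ring

/-- the whole matrix -/
noncomputable def gm (δ : Polynomial ℤ) (G : Fin n → Fin n → Polynomial ℤ) :
    Option (Fin n × Fin n) → Option (Fin n × Fin n) → Polynomial ℤ
  | none, none => δ
  | none, some _ => 0
  | some _, none => 0
  | some p, some p' => if p.1 = p'.1 then G p.2 p'.2 else 0

/-- Galochkin's condition -/
theorem t_gal : Pool.Agent.Y118.HG.T_gal := by
  intro n q
  refine ⟨(q + 1) * (n * n) + (q + 2) * (n * n) + (cc n q + 1), fun C T A y w hC hT hA hy hw hyS hwS => ?_⟩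
  set E := (q + 1) * (n * n) + (q + 2) * (n * n) + (cc n q + 1) with hE
  have hC0 : 0 < C := by linarith
  have h2C : (1 : ℝ) ≤ 2 * C := by linarith
  have hC2 : C ≤ 2 * C := by linarith
  have hCE : C ≤ (2 * C) ^ E := hC2.trans (le_self_pow₀ h2C (by omega))
  have hone : (1 : ℝ) ≤ (2 * C) ^ E := one_le_pow₀ h2C
  have hnn : ∀ m : ℕ, (C ^ (m + 1)) ^ (n * n) ≤ ((2 * C) ^ E) ^ (m + 1) := by
    intro m
    rw [← pow_mul, ← pow_mul]
    calc C ^ ((m + 1) * (n * n)) ≤ (2 * C) ^ ((m + 1) * (n * n)) := pow_le_pow_left₀ hC0.le hC2 _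
      _ ≤ (2 * C) ^ (E * (m + 1)) := by
        refine pow_le_pow_right₀ h2C ?_
        rw [mul_comm]
        refine Nat.mul_le_mul_right _ ?_
        rw [hE]
        nlinarith [Nat.zero_le (q * (n * n)), Nat.zero_le (n * n)]
  refine ⟨hone, hT.1, fun l => (hT.2 l).trans hCE, fun o m => ?_, fun m => ?_, fun k => ?_⟩
  · rcases o with _ | ⟨i, j⟩
    · show |((coeff m (1 : ℚ⟦X⟧) : ℚ) : ℝ)| ≤ _
      rw [coeff_one]
      have : (1 : ℝ) ≤ ((2 * C) ^ E) ^ (m + 1) := one_le_pow₀ hone
      split_ifs <;> simp <;> linarith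
    · exact ((hyS i j).1 m).trans (pow_le_pow_left₀ hC0.le hCE _)
  · obtain ⟨d, hd0, hd, hd'⟩ := common_den hyS m
    refine ⟨d, hd0, hd.trans (hnn m), fun o l hl => ?_⟩
    rcases o with _ | ⟨i, j⟩
    · show ∃ a : ℤ, (d : ℚ) * coeff l (1 : ℚ⟦X⟧) = a
      rw [coeff_one]
      split_ifs
      · exact ⟨d, by simp⟩
      · exact ⟨0, by simp⟩
    · exact hd' i j l hl
  · obtain ⟨dw, hdw0, hdw, hdw'⟩ := common_den hwS (q * k)
    obtain ⟨dy, hdy0, hdy, hdy'⟩ := common_den hyS (q * k + k)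
    have hcc := one_le_cc n q
    have hgb : ((dw * dy : ℕ) : ℝ) * (cc n q * C) ^ k ≤ ((2 * C) ^ E) ^ (k + 1) := by
      have e1 : (dw : ℝ) ≤ (2 * C) ^ ((q + 1) * (n * n) * (k + 1)) := by
        refine hdw.trans ?_
        rw [← pow_mul]
        refine (pow_le_pow_left₀ hC0.le hC2 _).trans (pow_le_pow_right₀ h2C ?_)
        have : q * k + 1 ≤ (q + 1) * (k + 1) := by nlinarith
        calc (q * k + 1) * (n * n) ≤ ((q + 1) * (k + 1)) * (n * n) := Nat.mul_le_mul_right _ this
          _ = _ := by ring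
      have e2 : (dy : ℝ) ≤ (2 * C) ^ ((q + 2) * (n * n) * (k + 1)) := by
        refine hdy.trans ?_
        rw [← pow_mul]
        refine (pow_le_pow_left₀ hC0.le hC2 _).trans (pow_le_pow_right₀ h2C ?_)
        have : q * k + k + 1 ≤ (q + 2) * (k + 1) := by nlinarith
        calc (q * k + k + 1) * (n * n) ≤ ((q + 2) * (k + 1)) * (n * n) := Nat.mul_le_mul_right _ this
          _ = _ := by ring
      have e3 : ((cc n q : ℝ) * C) ^ k ≤ (2 * C) ^ ((cc n q + 1) * (k + 1)) := by
        have f1 : (cc n q : ℝ) ≤ 2 ^ (cc n q) := by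
          exact_mod_cast (Nat.lt_two_pow_self (n := cc n q)).le
        have f2 : (cc n q : ℝ) * C ≤ (2 * C) ^ (cc n q + 1) := by
          rw [pow_succ]
          refine mul_le_mul (f1.trans (pow_le_pow_left₀ (by norm_num) (by linarith) _)) hC2 hC0.le (by positivity)
        calc ((cc n q : ℝ) * C) ^ k ≤ ((2 * C) ^ (cc n q + 1)) ^ k := pow_le_pow_left₀ (by positivity) f2 _
          _ ≤ ((2 * C) ^ (cc n q + 1)) ^ (k + 1) := pow_le_pow_right₀ (one_le_pow₀ h2C) (by omega)
          _ = _ := by rw [← pow_mul]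
      push_cast
      calc (dw : ℝ) * dy * (cc n q * C) ^ k ≤ (2 * C) ^ ((q + 1) * (n * n) * (k + 1)) *
            (2 * C) ^ ((q + 2) * (n * n) * (k + 1)) * (2 * C) ^ ((cc n q + 1) * (k + 1)) := by
            gcongr
        _ = _ := by
            rw [← pow_add, ← pow_add, ← pow_mul, hE]
            congr 1
            ring
    have hg1 : ((dw * dy : ℕ) : ℝ) ≤ ((2 * C) ^ E) ^ (k + 1) := by
      refine le_trans ?_ hgb
      have h1 : (1 : ℝ) ≤ (cc n q * C) ^ k := one_le_pow₀ (by nlinarith)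
      have h0 : (0 : ℝ) ≤ ((dw * dy : ℕ) : ℝ) := by positivity
      nlinarith
    refine ⟨dw * dy, Nat.mul_pos hdw0 hdy0, hg1, fun s hs => ?_⟩
    have hsize := ah_size hC hT hA
    have hIP : ∀ a b, IP (dw * dy) (ah T A s a b) := fun a b =>
      IP_ah hy hw hdw' hdy' hs (fun i j => (hsize s i j).1) a b
    choose G hG1 hG2 hG3 using fun i j => (hIP i j).lift (hsize s i j)
    have hGb : ∀ i j l, |(((G i j).coeff l : ℤ) : ℝ)| ≤ ((2 * C) ^ E) ^ (k + 1) := by
      intro i j l
      refine (hG3 i j l).trans (le_trans ?_ hgb)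
      refine mul_le_mul_of_nonneg_left ?_ (by positivity)
      exact pow_le_pow_right₀ (by nlinarith) hs
    have hpos : (0 : ℝ) ≤ ((2 * C) ^ E) ^ (k + 1) := by positivity
    refine ⟨gm (if s = 0 then Polynomial.C ((dw * dy : ℕ) : ℤ) else 0) G, fun o o' => ?_, fun o o' l => ?_, fun o => ?_⟩
    · rcases o with _ | p <;> rcases o' with _ | p'
      · show Polynomial.natDegree (if s = 0 then Polynomial.C ((dw * dy : ℕ) : ℤ) else 0) ≤ _
        split_ifs
        · rw [Polynomial.natDegree_C]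
          exact Nat.zero_le _
        · rw [Polynomial.natDegree_zero]
          exact Nat.zero_le _
      · show Polynomial.natDegree 0 ≤ _
        simp
      · show Polynomial.natDegree 0 ≤ _
        simp
      · show Polynomial.natDegree (if p.1 = p'.1 then G p.2 p'.2 else 0) ≤ _
        split_ifs
        · exact hG2 _ _
        · simp
    · rcases o with _ | p <;> rcases o' with _ | p'
      · show |(((if s = 0 then Polynomial.C ((dw * dy : ℕ) : ℤ) else 0 : Polynomial ℤ).coeff l : ℤ) : ℝ)| ≤ _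
        split_ifs
        · rw [Polynomial.coeff_C]
          split_ifs
          · rw [abs_of_nonneg (by positivity)]
            exact_mod_cast hg1
          · simpa using hpos
        · simpa using hpos
      · show |(((0 : Polynomial ℤ).coeff l : ℤ) : ℝ)| ≤ _
        simpa using hpos
      · show |(((0 : Polynomial ℤ).coeff l : ℤ) : ℝ)| ≤ _
        simpa using hpos
      · show |(((if p.1 = p'.1 then G p.2 p'.2 else 0 : Polynomial ℤ).coeff l : ℤ) : ℝ)| ≤ _
        split_ifs
        · exact hGb _ _ l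
        · simpa using hpos
    · rw [Fintype.sum_option]
      rcases o with _ | p
      · show (((dw * dy : ℕ) : ℕ) : ℚ⟦X⟧) * (ps T ^ s * hd s (1 : ℚ⟦X⟧)) =
          ps (if s = 0 then Polynomial.C ((dw * dy : ℕ) : ℤ) else 0) * 1 + ∑ p' : Fin n × Fin n, ps 0 * y p'.1 p'.2
        have hz : ps (0 : Polynomial ℤ) = 0 := by simp [ps]
        simp only [hz, zero_mul, Finset.sum_const_zero, add_zero, mul_one]
        split_ifs with h0
        · rw [h0, hd_zero, ps_C]
          simp
        · have h3 : hd s (1 : ℚ⟦X⟧) = 0 := by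
            ext m
            rw [coeff_hd, coeff_one, if_neg (by omega)]
            simp
          rw [h3, hz]
          simp
      · show (((dw * dy : ℕ) : ℕ) : ℚ⟦X⟧) * (ps T ^ s * hd s (y p.1 p.2)) =
          ps 0 * 1 + ∑ p' : Fin n × Fin n, ps (if p.1 = p'.1 then G p.2 p'.2 else 0) * y p'.1 p'.2
        have hz : ps (0 : Polynomial ℤ) = 0 := by simp [ps]
        rw [hz, zero_mul, zero_add, Fintype.sum_prod_type, hd_row hy]
        have hs1 : ∑ i : Fin n, ∑ k : Fin n, ps (if p.1 = i then G p.2 k else 0) * y i k = ∑ k, ps (G p.2 k) * y p.1 k := by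
          rw [Finset.sum_eq_single p.1]
          · exact Finset.sum_congr rfl fun k _ => by rw [if_pos rfl]
          · intro i _ hi
            refine Finset.sum_eq_zero fun k _ => ?_
            rw [if_neg (Ne.symm hi), hz, zero_mul]
          · simp
        rw [hs1, Finset.mul_sum]
        refine Finset.sum_congr rfl fun k _ => ?_
        rw [ps_eq, hG1 p.2 k, Polynomial.coe_mul, Polynomial.coe_C]
        simp only [map_natCast]
        ring

end Mat

end Pool.Agent.Y113.HGG
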